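import Pool.Agent.N93.HB.Bas

set_option autoImplicit false

/-!
Project HB, task DOSL.
-/

namespace Pool.Agent.N93.HB.Dosl

open MeasureTheory Filter Pool.Agent.W792.LL Pool.Agent.W792.WA Pool.Agent.N659.HB
open scoped Topology ENNReal
open Pool.Agent.N93.HB

/-- difference of powers -/
lemma abs_pow_sub_le (a b m : ℝ) (ha : |a| ≤ m) (hb : |b| ≤ m) (n : ℕ) :
    |a ^ (n + 1) - b ^ (n + 1)| ≤ (n + 1) * |a - b| * m ^ n := by
  have hm : 0 ≤ m := (abs_nonneg _).trans ha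
  induction n with
  | zero => simp
  | succ n ih =>
    have h1 : a ^ (n + 1 + 1) - b ^ (n + 1 + 1) =
        a * (a ^ (n + 1) - b ^ (n + 1)) + (a - b) * b ^ (n + 1) := by ring
    rw [h1]
    have h2 : |b ^ (n + 1)| ≤ m ^ (n + 1) := by
      rw [abs_pow]; exact pow_le_pow_left₀ (abs_nonneg _) hb _
    calc |a * (a ^ (n + 1) - b ^ (n + 1)) + (a - b) * b ^ (n + 1)|
        ≤ |a| * |a ^ (n + 1) - b ^ (n + 1)| + |a - b| * |b ^ (n + 1)| := by
          rw [← abs_mul, ← abs_mul]; exact abs_add_le _ _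
      _ ≤ m * ((n + 1) * |a - b| * m ^ n) + |a - b| * m ^ (n + 1) := by
          apply add_le_add
          · exact mul_le_mul ha ih (abs_nonneg _) hm
          · exact mul_le_mul_of_nonneg_left h2 (abs_nonneg _)
      _ = _ := by push_cast; ring

/-- replacing the powers of the Bessel function by a Gaussian -/
lemma bes_gauss (hB : S_BES) : ∃ C : ℝ, 0 < C ∧ ∀ d : ℕ, 6 ≤ d →
    Integrable (fun s : ℝ => |bes s ^ d - Real.exp (-(d * s ^ 2))|) ∧
    ∫ s : ℝ, |bes s ^ d - Real.exp (-(d * s ^ 2))| ≤ C / d := by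
  obtain ⟨hcont, happ, hexp, ⟨q, hq0, hq1, hq⟩, C, hC, hdec⟩ := hB
  obtain ⟨K, hK, hgeo⟩ := geo_bound hq0 hq1
  set J : ℝ := ∫ s : ℝ, (1 + ‖s‖) ^ (-2 : ℝ) with hJ
  have hJ0 : 0 ≤ J := integral_nonneg fun s => by positivity
  refine ⟨64 * Real.sqrt (4 * Real.pi) * 2 + K * C ^ 6 * J + Real.sqrt Real.pi, by positivity,
    fun d hd6 => ?_⟩
  have hd0 : (0 : ℝ) < d := by exact_mod_cast (by omega : 0 < d)
  have hd6' : (6 : ℝ) ≤ d := by exact_mod_cast hd6
  obtain ⟨e, rfl⟩ : ∃ e, d = e + 1 := ⟨d - 1, by omega⟩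
  have he5 : (5 : ℝ) ≤ e := by exact_mod_cast (by omega : 5 ≤ e)
  have he0 : (0 : ℝ) < e := by linarith
  have hde : ((e + 1 : ℕ) : ℝ) = (e : ℝ) + 1 := by push_cast; ring
  have hG : Integrable (fun s : ℝ => Real.exp (-((e : ℝ) / 4) * s ^ 2)) :=
    integrable_exp_neg_mul_sq (by positivity)
  have hG1 : Integrable (fun s : ℝ => Real.exp (-1 * s ^ 2)) :=
    integrable_exp_neg_mul_sq one_pos
  have hP : Integrable (fun s : ℝ => q ^ (e + 1 - 6) * C ^ 6 * (1 + ‖s‖) ^ (-2 : ℝ)) :=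
    int_jap.const_mul _
  have hGc := hG.const_mul (32 * ((e : ℝ) + 1) / (e : ℝ) ^ 2)
  have hG1c := hG1.const_mul (Real.exp (-(e : ℝ)))
  have hpt : ∀ s : ℝ, |bes s ^ (e + 1) - Real.exp (-(((e + 1 : ℕ) : ℝ) * s ^ 2))| ≤
      32 * ((e : ℝ) + 1) / (e : ℝ) ^ 2 * Real.exp (-((e : ℝ) / 4) * s ^ 2) +
      q ^ (e + 1 - 6) * C ^ 6 * (1 + ‖s‖) ^ (-2 : ℝ) +
      Real.exp (-(e : ℝ)) * Real.exp (-1 * s ^ 2) := by
    intro s
    have p1 : 0 ≤ 32 * ((e : ℝ) + 1) / (e : ℝ) ^ 2 * Real.exp (-((e : ℝ) / 4) * s ^ 2) := by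
      positivity
    have p2 : 0 ≤ q ^ (e + 1 - 6) * C ^ 6 * (1 + ‖s‖) ^ (-2 : ℝ) := by positivity
    have p3 : 0 ≤ Real.exp (-(e : ℝ)) * Real.exp (-1 * s ^ 2) := by positivity
    rcases le_total |s| 1 with h | h
    · have h0 : Real.exp (-(((e + 1 : ℕ) : ℝ) * s ^ 2)) = Real.exp (-s ^ 2) ^ (e + 1) := by
        rw [← Real.exp_nat_mul]; congr 1; ring
      rw [h0]
      have h1 := abs_pow_sub_le (bes s) (Real.exp (-s ^ 2)) (Real.exp (-(s ^ 2) / 2)) (hexp s h)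
        (by
          rw [Real.abs_exp]
          apply Real.exp_le_exp.2
          nlinarith [sq_nonneg s]) e
      have h2 : Real.exp (-(s ^ 2) / 2) ^ e =
          Real.exp (-((e : ℝ) / 4) * s ^ 2) * Real.exp (-((e : ℝ) / 4) * s ^ 2) := by
        rw [← Real.exp_nat_mul, ← Real.exp_add]; congr 1; ring
      have h3 : s ^ 4 * Real.exp (-((e : ℝ) / 4) * s ^ 2) ≤ 32 / (e : ℝ) ^ 2 := by
        have h4 : ((e : ℝ) / 4 * s ^ 2) ^ 2 / 2 ≤ Real.exp ((e : ℝ) / 4 * s ^ 2) := by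
          have := Real.quadratic_le_exp_of_nonneg (x := (e : ℝ) / 4 * s ^ 2) (by positivity)
          have h5 : 0 ≤ (e : ℝ) / 4 * s ^ 2 := by positivity
          linarith
        have h5 : Real.exp (-((e : ℝ) / 4) * s ^ 2) = (Real.exp ((e : ℝ) / 4 * s ^ 2))⁻¹ := by
          rw [← Real.exp_neg]; congr 1; ring
        rw [h5, ← div_eq_mul_inv, div_le_div_iff₀ (Real.exp_pos _) (by positivity)]
        nlinarith
      have h6 : |bes s - Real.exp (-s ^ 2)| * Real.exp (-((e : ℝ) / 4) * s ^ 2) ≤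
          32 / (e : ℝ) ^ 2 :=
        (mul_le_mul_of_nonneg_right (happ s h) (Real.exp_pos _).le).trans h3
      have h7 : ((e : ℝ) + 1) * |bes s - Real.exp (-s ^ 2)| * Real.exp (-(s ^ 2) / 2) ^ e ≤
          32 * ((e : ℝ) + 1) / (e : ℝ) ^ 2 * Real.exp (-((e : ℝ) / 4) * s ^ 2) := by
        rw [h2]
        calc ((e : ℝ) + 1) * |bes s - Real.exp (-s ^ 2)| *
              (Real.exp (-((e : ℝ) / 4) * s ^ 2) * Real.exp (-((e : ℝ) / 4) * s ^ 2))
            = (((e : ℝ) + 1) * Real.exp (-((e : ℝ) / 4) * s ^ 2)) *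
              (|bes s - Real.exp (-s ^ 2)| * Real.exp (-((e : ℝ) / 4) * s ^ 2)) := by ring
          _ ≤ (((e : ℝ) + 1) * Real.exp (-((e : ℝ) / 4) * s ^ 2)) * (32 / (e : ℝ) ^ 2) :=
              mul_le_mul_of_nonneg_left h6 (by positivity)
          _ = _ := by ring
      linarith
    · have h1 := pow_bound hq0 hq hdec (e + 1) hd6 s h
      rw [← abs_pow] at h1
      have h2 : Real.exp (-(((e + 1 : ℕ) : ℝ) * s ^ 2)) ≤
          Real.exp (-(e : ℝ)) * Real.exp (-1 * s ^ 2) := by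
        rw [← Real.exp_add]
        apply Real.exp_le_exp.2
        rw [hde]
        have h3 : 1 ≤ s ^ 2 := by
          rw [← sq_abs]; nlinarith
        nlinarith
      have h3 : |bes s ^ (e + 1) - Real.exp (-(((e + 1 : ℕ) : ℝ) * s ^ 2))| ≤
          |bes s ^ (e + 1)| + |Real.exp (-(((e + 1 : ℕ) : ℝ) * s ^ 2))| := abs_sub _ _
      rw [Real.abs_exp] at h3
      linarith
  have hI : Integrable
      (fun s : ℝ => |bes s ^ (e + 1) - Real.exp (-(((e + 1 : ℕ) : ℝ) * s ^ 2))|) := by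
    refine ((hGc.add hP).add hG1c).mono' ?_ ?_
    · apply Continuous.aestronglyMeasurable
      exact ((hcont.pow _).sub (by fun_prop)).abs
    · filter_upwards with s
      rw [Real.norm_eq_abs, abs_abs]
      exact hpt s
  refine ⟨hI, ?_⟩
  calc ∫ s : ℝ, |bes s ^ (e + 1) - Real.exp (-(((e + 1 : ℕ) : ℝ) * s ^ 2))|
      ≤ ∫ s : ℝ, (32 * ((e : ℝ) + 1) / (e : ℝ) ^ 2 * Real.exp (-((e : ℝ) / 4) * s ^ 2) +
      q ^ (e + 1 - 6) * C ^ 6 * (1 + ‖s‖) ^ (-2 : ℝ) +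
      Real.exp (-(e : ℝ)) * Real.exp (-1 * s ^ 2)) :=
        integral_mono hI ((hGc.add hP).add hG1c) hpt
    _ = 32 * ((e : ℝ) + 1) / (e : ℝ) ^ 2 * Real.sqrt (Real.pi / (e / 4)) +
        q ^ (e + 1 - 6) * C ^ 6 * J + Real.exp (-(e : ℝ)) * Real.sqrt (Real.pi / 1) := by
        have i1 := integral_add (f := fun s : ℝ => 32 * ((e : ℝ) + 1) / (e : ℝ) ^ 2 *
          Real.exp (-((e : ℝ) / 4) * s ^ 2) + q ^ (e + 1 - 6) * C ^ 6 * (1 + ‖s‖) ^ (-2 : ℝ))
          (g := fun s : ℝ => Real.exp (-(e : ℝ)) * Real.exp (-1 * s ^ 2)) (hGc.add hP) hG1c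
        rw [i1, integral_add hGc hP, integral_const_mul,
          integral_const_mul, integral_const_mul, integral_gaussian, integral_gaussian]
    _ ≤ 64 * Real.sqrt (4 * Real.pi) * 2 / ((e + 1 : ℕ) : ℝ) +
        K * C ^ 6 * J / ((e + 1 : ℕ) : ℝ) + Real.sqrt Real.pi / ((e + 1 : ℕ) : ℝ) := by
        apply add_le_add (add_le_add _ _)
        · rw [div_one, div_eq_mul_inv, mul_comm (Real.exp _)]
          apply mul_le_mul_of_nonneg_left _ (Real.sqrt_nonneg _)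
          rw [Real.exp_neg]
          apply inv_anti₀ (by positivity)
          rw [hde]
          exact Real.add_one_le_exp _
        · have h1 := hgeo (e + 1) hd6
          have h2 : Real.sqrt (Real.pi / (e / 4)) ≤ Real.sqrt (4 * Real.pi) := by
            apply Real.sqrt_le_sqrt
            rw [div_le_iff₀ (by positivity)]
            nlinarith [Real.pi_pos]
          rw [hde]
          have h3 : 32 * ((e : ℝ) + 1) / (e : ℝ) ^ 2 ≤ 64 * 2 / ((e : ℝ) + 1) := by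
            rw [div_le_div_iff₀ (by positivity) (by positivity)]
            nlinarith
          calc 32 * ((e : ℝ) + 1) / (e : ℝ) ^ 2 * Real.sqrt (Real.pi / (e / 4))
              ≤ 64 * 2 / ((e : ℝ) + 1) * Real.sqrt (4 * Real.pi) :=
                mul_le_mul h3 h2 (Real.sqrt_nonneg _) (by positivity)
            _ = _ := by ring
        · have h1 := hgeo (e + 1) hd6
          have h2 := mul_le_mul_of_nonneg_right h1 (by positivity : (0 : ℝ) ≤ C ^ 6 * J)
          calc q ^ (e + 1 - 6) * C ^ 6 * J = q ^ (e + 1 - 6) * (C ^ 6 * J) := by ring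
            _ ≤ _ := h2
            _ = _ := by ring
    _ = _ := by rw [← add_div, ← add_div]

/-- lower bound for the Gaussian average in the bulk -/
lemma gam_ge (hB : S_BES) (hG : S_GAU) (A : ℝ) : ∃ (c : ℝ) (d₀ : ℕ), 0 < c ∧ 6 ≤ d₀ ∧
    ∀ d : ℕ, d₀ ≤ d → ∀ τ E : ℝ, |E - 2 * d| ≤ A * Real.sqrt d → 0 < τ → τ ≤ 1 →
    c * τ / Real.sqrt d ≤ Gam d τ E := by
  obtain ⟨C, hC, hbg⟩ := bes_gauss hB
  obtain ⟨C', hC', hib⟩ := int_bes hB
  set c0 : ℝ := Real.sqrt (2 * Real.pi / 3) * Real.exp (-(A ^ 2 / 4)) with hc0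
  have hc0' : 0 < c0 := by positivity
  obtain ⟨d1, hd1⟩ := exists_nat_ge ((2 * C / c0) ^ 2)
  refine ⟨c0 / 2 / Real.sqrt (2 * Real.pi), max d1 6, by positivity, le_max_right _ _,
    fun d hd τ E hE hτ hτ1 => ?_⟩
  have hd6 : 6 ≤ d := (le_max_right _ _).trans hd
  have hd0 : (0 : ℝ) < d := by exact_mod_cast (by omega : 0 < d)
  have hd1' : (1 : ℝ) ≤ d := by exact_mod_cast (by omega : 1 ≤ d)
  have hsd : 0 < Real.sqrt d := Real.sqrt_pos.2 hd0
  obtain ⟨hI, hle⟩ := hbg d hd6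
  obtain ⟨hI', _⟩ := hib d hd6
  have hcont := hB.1
  set X : ℝ := 2 * d - E with hX
  set F : ℝ → ℂ := fun s => ((Real.exp (-(τ ^ 2 * s ^ 2) / 2) : ℝ) : ℂ)
          * Complex.exp (Complex.I * s * (2 * d - E)) * ((bes s ^ d : ℝ) : ℂ) with hF
  set G : ℝ → ℂ := fun s => ((Real.exp (-(τ ^ 2 * s ^ 2) / 2) : ℝ) : ℂ)
          * Complex.exp (Complex.I * s * (2 * d - E)) * ((Real.exp (-(d * s ^ 2)) : ℝ) : ℂ) with hGd
  have hexp1 : ∀ s : ℝ, Real.exp (-(τ ^ 2 * s ^ 2) / 2) ≤ 1 := by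
    intro s
    rw [Real.exp_le_one_iff]
    have : 0 ≤ τ ^ 2 * s ^ 2 := by positivity
    linarith
  have hFI : Integrable F := by
    refine hI'.mono' ?_ ?_
    · apply Continuous.aestronglyMeasurable
      simp only [hF]
      exact ((by fun_prop : Continuous fun s : ℝ => ((Real.exp (-(τ ^ 2 * s ^ 2) / 2) : ℝ) : ℂ)
          * Complex.exp (Complex.I * s * (2 * d - E)))).mul
          (Complex.continuous_ofReal.comp (hcont.pow d))
    · filter_upwards with s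
      simp only [hF]
      rw [norm_mul, norm_mul, norm_phase, mul_one, Complex.norm_real, Complex.norm_real,
        Real.norm_eq_abs, Real.norm_eq_abs, abs_pow, Real.abs_exp]
      calc Real.exp (-(τ ^ 2 * s ^ 2) / 2) * |bes s| ^ d ≤ 1 * |bes s| ^ d :=
            mul_le_mul_of_nonneg_right (hexp1 s) (by positivity)
        _ = _ := one_mul _
  -- the Gaussian integral
  have hb : 0 < (((τ ^ 2 / 2 + d : ℝ)) : ℂ).re := by
    rw [Complex.ofReal_re]; positivity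
  have hGeq : G = fun s : ℝ => Complex.exp (Complex.I * ((X : ℝ) : ℂ) * s) *
      Complex.exp (-((τ ^ 2 / 2 + d : ℝ) : ℂ) * (s : ℂ) ^ 2) := by
    funext s
    simp only [hGd]
    rw [Complex.ofReal_exp, Complex.ofReal_exp, ← Complex.exp_add, ← Complex.exp_add,
      ← Complex.exp_add]
    congr 1
    rw [hX]
    push_cast
    ring
  have hGI : Integrable G := by
    rw [hGeq]
    have h1 := integrable_cexp_quadratic (b := ((τ ^ 2 / 2 + d : ℝ) : ℂ)) hb
      (Complex.I * ((X : ℝ) : ℂ)) 0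
    refine h1.congr ?_
    filter_upwards with s
    rw [← Complex.exp_add]
    congr 1
    ring
  have hGint : ∫ s, G s = ((Real.sqrt (2 * Real.pi / (τ ^ 2 + 2 * d)) *
      Real.exp (-(X ^ 2 / (2 * (τ ^ 2 + 2 * d)))) : ℝ) : ℂ) := by
    rw [hGeq]
    have h1 := fourierIntegral_gaussian hb ((X : ℝ) : ℂ)
    rw [h1]
    have h2 : ((Real.pi : ℂ) / ((τ ^ 2 / 2 + d : ℝ) : ℂ)) ^ (1 / 2 : ℂ) =
        ((Real.sqrt (2 * Real.pi / (τ ^ 2 + 2 * d)) : ℝ) : ℂ) := by
      rw [Real.sqrt_eq_rpow, Complex.ofReal_cpow (by positivity)]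
      congr 1
      · push_cast
        have : ((τ : ℂ) ^ 2 / 2 + d) = ((τ : ℂ) ^ 2 + 2 * d) / 2 := by ring
        rw [this]
        field_simp
      · push_cast; ring
    rw [h2]
    have h3 : -((X : ℝ) : ℂ) ^ 2 / (4 * ((τ ^ 2 / 2 + d : ℝ) : ℂ)) =
        ((-(X ^ 2 / (2 * (τ ^ 2 + 2 * d))) : ℝ) : ℂ) := by
      push_cast
      have : 4 * ((τ : ℂ) ^ 2 / 2 + d) = 2 * ((τ : ℂ) ^ 2 + 2 * d) := by ring
      rw [this]; ring
    rw [h3, ← Complex.ofReal_exp, ← Complex.ofReal_mul]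
  have hdiff : ‖(∫ s, F s) - ∫ s, G s‖ ≤ C / d := by
    rw [← integral_sub hFI hGI]
    refine le_trans (norm_integral_le_of_norm_le hI ?_) hle
    filter_upwards with s
    have h1 : F s - G s = ((Real.exp (-(τ ^ 2 * s ^ 2) / 2) : ℝ) : ℂ)
          * Complex.exp (Complex.I * s * (2 * d - E)) *
          ((bes s ^ d - Real.exp (-(d * s ^ 2)) : ℝ) : ℂ) := by
      simp only [hF, hGd]; push_cast; ring
    rw [h1, norm_mul, norm_mul, norm_phase, mul_one, Complex.norm_real, Complex.norm_real,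
      Real.norm_eq_abs, Real.norm_eq_abs, Real.abs_exp]
    calc Real.exp (-(τ ^ 2 * s ^ 2) / 2) * _ ≤ 1 * |bes s ^ d - Real.exp (-(d * s ^ 2))| :=
          mul_le_mul_of_nonneg_right (hexp1 s) (abs_nonneg _)
      _ = _ := one_mul _
  have hX2 : X ^ 2 ≤ A ^ 2 * d := by
    have h1 : |X| ≤ A * Real.sqrt d := by
      rw [hX, abs_sub_comm]; exact hE
    have h2 := pow_le_pow_left₀ (abs_nonneg _) h1 2
    rw [sq_abs, mul_pow, Real.sq_sqrt hd0.le] at h2
    exact h2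
  have hmain : c0 / Real.sqrt d ≤ Real.sqrt (2 * Real.pi / (τ ^ 2 + 2 * d)) *
      Real.exp (-(X ^ 2 / (2 * (τ ^ 2 + 2 * d)))) := by
    have h1 : Real.sqrt (2 * Real.pi / 3) / Real.sqrt d ≤
        Real.sqrt (2 * Real.pi / (τ ^ 2 + 2 * d)) := by
      rw [← Real.sqrt_div (by positivity)]
      apply Real.sqrt_le_sqrt
      rw [div_div]
      apply div_le_div_of_nonneg_left (by positivity) (by positivity)
      nlinarith
    have h2 : Real.exp (-(A ^ 2 / 4)) ≤ Real.exp (-(X ^ 2 / (2 * (τ ^ 2 + 2 * d)))) := by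
      apply Real.exp_le_exp.2
      apply neg_le_neg
      rw [div_le_div_iff₀ (by positivity) (by norm_num)]
      nlinarith [mul_nonneg (sq_nonneg A) (sq_nonneg τ)]
    calc c0 / Real.sqrt d = Real.sqrt (2 * Real.pi / 3) / Real.sqrt d * Real.exp (-(A ^ 2 / 4)) := by
          rw [hc0]; ring
      _ ≤ _ := mul_le_mul h1 h2 (Real.exp_pos _).le (Real.sqrt_nonneg _)
  have herr : C / d ≤ c0 / 2 / Real.sqrt d := by
    have h1 : 2 * C / c0 ≤ Real.sqrt d := by
      apply Real.le_sqrt_of_sq_le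
      refine hd1.trans ?_
      exact_mod_cast (le_max_left _ _).trans hd
    rw [div_le_div_iff₀ hd0 hsd]
    rw [div_le_iff₀ hc0'] at h1
    have h2 : (d : ℝ) = Real.sqrt d * Real.sqrt d := (Real.mul_self_sqrt hd0.le).symm
    calc C * Real.sqrt d ≤ (Real.sqrt d * c0 / 2) * Real.sqrt d :=
          mul_le_mul_of_nonneg_right (by linarith) hsd.le
      _ = c0 / 2 * (Real.sqrt d * Real.sqrt d) := by ring
      _ = c0 / 2 * d := by rw [← h2]
  have hre : c0 / 2 / Real.sqrt d ≤ (∫ s, F s).re := by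
    have h1 : |((∫ s, F s) - ∫ s, G s).re| ≤ C / d := (Complex.abs_re_le_norm _).trans hdiff
    rw [Complex.sub_re, hGint, Complex.ofReal_re] at h1
    have h2 := neg_abs_le ((∫ s, F s).re - Real.sqrt (2 * Real.pi / (τ ^ 2 + 2 * d)) *
      Real.exp (-(X ^ 2 / (2 * (τ ^ 2 + 2 * d)))))
    have h3 : c0 / Real.sqrt d = c0 / 2 / Real.sqrt d + c0 / 2 / Real.sqrt d := by ring
    linarith
  have hg := hG d τ E hτ
  have hg2 : Gam d τ E = τ / Real.sqrt (2 * Real.pi) * (∫ s, F s).re := by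
    have h1 : ((Gam d τ E : ℝ) : ℂ).re = (((τ / Real.sqrt (2 * Real.pi) : ℝ) : ℂ) * ∫ s, F s).re := by
      unfold Gam
      rw [hg]
    rw [Complex.ofReal_re, Complex.re_ofReal_mul] at h1
    exact h1
  rw [hg2]
  calc c0 / 2 / Real.sqrt (2 * Real.pi) * τ / Real.sqrt d =
      τ / Real.sqrt (2 * Real.pi) * (c0 / 2 / Real.sqrt d) := by ring
    _ ≤ _ := mul_le_mul_of_nonneg_left hre (by positivity)

theorem main (hB : S_BES) (hG : S_GAU) : S_DOSL := by
  intro A _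
  obtain ⟨C, hC, hle⟩ := gam_le hB hG
  obtain ⟨c, d₀, hc, hd06, hge⟩ := gam_ge hB hG A
  obtain ⟨B, hB1, hBC⟩ : ∃ B : ℝ, 1 ≤ B ∧ Real.exp (-(B ^ 2 / 4)) * (C * Real.sqrt 2) ≤ c / 2 := by
    refine ⟨1 + 8 * (C * Real.sqrt 2) / c, by
      have : 0 ≤ 8 * (C * Real.sqrt 2) / c := by positivity
      linarith, ?_⟩
    set Z : ℝ := 8 * (C * Real.sqrt 2) / c with hZ
    have hZ0 : 0 ≤ Z := by positivity
    have h1 : (Z / 4 : ℝ) ≤ Real.exp ((1 + Z) ^ 2 / 4) := by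
      have h2 := Real.add_one_le_exp ((1 + Z) ^ 2 / 4)
      nlinarith
    rw [Real.exp_neg, inv_mul_le_iff₀ (Real.exp_pos _)]
    have h3 : C * Real.sqrt 2 = Z / 4 * (c / 2) := by rw [hZ]; field_simp; ring
    rw [h3]
    exact mul_le_mul_of_nonneg_right h1 (by positivity)
  have hB0 : 0 < B := by linarith
  refine ⟨c / (2 * B), d₀, by positivity, fun d hd E ρ hE hρ hρ1 => ?_⟩
  have hd0 : (0 : ℝ) < d := by exact_mod_cast (by omega : 0 < d)
  have hsd : 0 < Real.sqrt d := Real.sqrt_pos.2 hd0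
  set τ : ℝ := ρ / B with hτdef
  have hτ : 0 < τ := by positivity
  have hτ1 : τ ≤ 1 := by
    rw [hτdef, div_le_one hB0]; linarith
  have hs2 : 0 < Real.sqrt 2 := by positivity
  have h1 := hge d hd τ E hE hτ hτ1
  have h2 := hle d (hd06.trans hd) (Real.sqrt 2 * τ) E (by positivity)
  have h3 : Gam d τ E - Real.exp (-(B ^ 2 / 4)) * Gam d (Real.sqrt 2 * τ) E ≤ dos d E ρ := by
    rw [dos_eq]
    unfold Gam
    rw [← integral_const_mul, ← integral_sub (int_gam d τ E) ((int_gam d _ E).const_mul _)]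
    apply integral_mono ((int_gam d τ E).sub ((int_gam d _ E).const_mul _)) (int_ind d E ρ)
    intro k
    show Real.exp (-((lap d k - E) ^ 2) / (2 * τ ^ 2)) - Real.exp (-(B ^ 2 / 4)) *
      Real.exp (-((lap d k - E) ^ 2) / (2 * (Real.sqrt 2 * τ) ^ 2)) ≤
      Set.indicator {k | |lap d k - E| ≤ ρ} (fun _ => (1 : ℝ)) k
    have h4 : (Real.sqrt 2 * τ) ^ 2 = 2 * τ ^ 2 := by
      rw [mul_pow, Real.sq_sqrt (by norm_num)]
    have h5 : B = ρ / τ := by rw [hτdef]; field_simp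
    set x : ℝ := (lap d k - E) ^ 2 / (4 * τ ^ 2) with hx
    have h6 : -((lap d k - E) ^ 2) / (2 * τ ^ 2) = -x + -x := by rw [hx]; field_simp; ring
    have h7 : -((lap d k - E) ^ 2) / (2 * (Real.sqrt 2 * τ) ^ 2) = -x := by
      rw [h4, hx]; ring
    rw [h6, h7, Real.exp_add]
    have hx0 : 0 ≤ x := by positivity
    have hex : Real.exp (-x) ≤ 1 := by rw [Real.exp_le_one_iff]; linarith
    have hex0 := Real.exp_pos (-x)
    by_cases hk : |lap d k - E| ≤ ρ
    · rw [Set.indicator_of_mem (by exact hk)]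
      have : 0 ≤ Real.exp (-(B ^ 2 / 4)) * Real.exp (-x) := by positivity
      nlinarith
    · rw [Set.indicator_of_notMem (by exact hk)]
      have h8 : B ^ 2 / 4 ≤ x := by
        rw [hx, h5, div_pow, div_div, div_le_div_iff₀ (by positivity) (by positivity)]
        have h9 : ρ ^ 2 ≤ (lap d k - E) ^ 2 := by
          rw [← sq_abs (lap d k - E)]
          exact pow_le_pow_left₀ hρ.le (not_le.1 hk).le 2
        nlinarith [sq_nonneg τ, mul_le_mul_of_nonneg_right h9 (sq_nonneg τ)]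
      have h10 : Real.exp (-x) ≤ Real.exp (-(B ^ 2 / 4)) := Real.exp_le_exp.2 (by linarith)
      nlinarith
  refine le_trans ?_ h3
  have h11 : Real.exp (-(B ^ 2 / 4)) * Gam d (Real.sqrt 2 * τ) E ≤ c / 2 * (τ / Real.sqrt d) := by
    calc Real.exp (-(B ^ 2 / 4)) * Gam d (Real.sqrt 2 * τ) E
        ≤ Real.exp (-(B ^ 2 / 4)) * (C * (Real.sqrt 2 * τ) / Real.sqrt d) :=
          mul_le_mul_of_nonneg_left h2 (Real.exp_pos _).le
      _ = Real.exp (-(B ^ 2 / 4)) * (C * Real.sqrt 2) * (τ / Real.sqrt d) := by ring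
      _ ≤ _ := mul_le_mul_of_nonneg_right hBC (by positivity)
  have h12 : c / (2 * B) * ρ / Real.sqrt d = c / 2 * (τ / Real.sqrt d) := by
    rw [hτdef]; field_simp
  have h13 : c * τ / Real.sqrt d = c / 2 * (τ / Real.sqrt d) + c / 2 * (τ / Real.sqrt d) := by
    ring
  linarith

end Pool.Agent.N93.HB.Dosl
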