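import Pool.Agent.N93.HB.Bas

set_option autoImplicit false

/-!
Project HB, task DOSU.
-/

namespace Pool.Agent.N93.HB.Dosu

open MeasureTheory Filter Pool.Agent.W792.LL Pool.Agent.W792.WA Pool.Agent.N659.HB
open scoped Topology ENNReal
open Pool.Agent.N93.HB

theorem main (hB : S_BES) (hG : S_GAU) : S_DOSU := by
  obtain ⟨C, hC, h⟩ := gam_le hB hG
  refine ⟨Real.exp (1 / 2) * C, 6, by positivity, fun d hd E ρ hρ => ?_⟩
  have h1 : dos d E ρ ≤ Real.exp (1 / 2) * Gam d ρ E := by
    rw [dos_eq]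
    unfold Gam
    rw [← integral_const_mul]
    apply integral_mono (int_ind d E ρ) ((int_gam d ρ E).const_mul _)
    intro k
    show Set.indicator {k | |lap d k - E| ≤ ρ} (fun _ => (1 : ℝ)) k ≤ _
    by_cases hk : |lap d k - E| ≤ ρ
    · rw [Set.indicator_of_mem (by exact hk)]
      show (1 : ℝ) ≤ Real.exp (1 / 2) * Real.exp (-((lap d k - E) ^ 2) / (2 * ρ ^ 2))
      rw [← Real.exp_add]
      apply Real.one_le_exp
      have h2 : (lap d k - E) ^ 2 / (2 * ρ ^ 2) ≤ 1 / 2 := by
        rw [div_le_div_iff₀ (by positivity) (by norm_num)]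
        have := sq_le_sq' (by linarith [neg_abs_le (lap d k - E), abs_nonneg (lap d k - E)])
          ((le_abs_self _).trans hk)
        linarith
      have h3 : -((lap d k - E) ^ 2) / (2 * ρ ^ 2) = -((lap d k - E) ^ 2 / (2 * ρ ^ 2)) := by ring
      rw [h3]; linarith
    · rw [Set.indicator_of_notMem (by exact hk)]
      positivity
  calc dos d E ρ ≤ Real.exp (1 / 2) * Gam d ρ E := h1
    _ ≤ Real.exp (1 / 2) * (C * ρ / Real.sqrt d) :=
        mul_le_mul_of_nonneg_left (h d hd ρ E hρ) (Real.exp_pos _).le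
    _ = _ := by ring

end Pool.Agent.N93.HB.Dosu
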