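import Pool.Agent.N659.HB.Stm

set_option autoImplicit false

/-!
Project HB, common part of the tasks DOSU and DOSL: integrals of powers of the Bessel function.
-/

namespace Pool.Agent.N93.HB

open MeasureTheory Filter Pool.Agent.W792.LL Pool.Agent.W792.WA Pool.Agent.N659.HB
open scoped Topology ENNReal

/-- decay of the powers -/
lemma pow_bound {C q : ℝ} (hq0 : 0 < q)
    (hq : ∀ s, 1 ≤ |s| → |bes s| ≤ q)
    (hd : ∀ s, |bes s| ≤ C / (1 + |s|) ^ (1 / 3 : ℝ)) (d : ℕ) (hd6 : 6 ≤ d) (s : ℝ)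
    (hs : 1 ≤ |s|) :
    |bes s| ^ d ≤ q ^ (d - 6) * C ^ 6 * (1 + ‖s‖) ^ (-2 : ℝ) := by
  have h0 : 0 < 1 + |s| := by positivity
  have h1 : |bes s| ^ 6 ≤ C ^ 6 * (1 + ‖s‖) ^ (-2 : ℝ) := by
    calc |bes s| ^ 6 ≤ (C / (1 + |s|) ^ (1 / 3 : ℝ)) ^ 6 :=
          pow_le_pow_left₀ (abs_nonneg _) (hd s) 6
      _ = C ^ 6 * (1 + ‖s‖) ^ (-2 : ℝ) := by
          rw [div_pow, ← Real.rpow_natCast ((1 + |s|) ^ (1 / 3 : ℝ)) 6, ← Real.rpow_mul h0.le,
            Real.norm_eq_abs, Real.rpow_neg h0.le, div_eq_mul_inv]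
          norm_num
  have h2 : |bes s| ^ (d - 6) ≤ q ^ (d - 6) := pow_le_pow_left₀ (abs_nonneg _) (hq s hs) _
  calc |bes s| ^ d = |bes s| ^ (d - 6) * |bes s| ^ 6 := by
        rw [← pow_add]; congr 1; omega
    _ ≤ q ^ (d - 6) * (C ^ 6 * (1 + ‖s‖) ^ (-2 : ℝ)) :=
        mul_le_mul h2 h1 (by positivity) (by positivity)
    _ = _ := by ring

lemma int_jap : Integrable (fun s : ℝ => (1 + ‖s‖) ^ (-2 : ℝ)) := by
  apply integrable_one_add_norm
  simp

/-- a geometric sequence is `O(1/d)` -/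
lemma geo_bound {q : ℝ} (hq0 : 0 < q) (hq1 : q < 1) :
    ∃ K : ℝ, 0 < K ∧ ∀ d : ℕ, 6 ≤ d → q ^ (d - 6) ≤ K / d := by
  have h := tendsto_pow_const_mul_const_pow_of_abs_lt_one 1 (show |q| < 1 by
    rw [abs_of_pos hq0]; exact hq1)
  obtain ⟨B, hB⟩ := (h.bddAbove_range)
  refine ⟨|B| + 6, by positivity, fun d hd => ?_⟩
  have hd0 : (0 : ℝ) < d := by exact_mod_cast (by omega : 0 < d)
  rw [le_div_iff₀ hd0]
  have h1 : ((d - 6 : ℕ) : ℝ) ^ 1 * q ^ (d - 6) ≤ B := hB ⟨d - 6, rfl⟩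
  have h2 : q ^ (d - 6) ≤ 1 := pow_le_one₀ hq0.le hq1.le
  have h3 : (d : ℝ) = ((d - 6 : ℕ) : ℝ) + 6 := by
    rw [Nat.cast_sub hd]; norm_num
  rw [pow_one] at h1
  rw [h3]
  have := le_abs_self B
  nlinarith

/-- the powers of the Bessel function are integrable with integral `O(1/√d)` -/
lemma int_bes (hB : S_BES) : ∃ C : ℝ, 0 < C ∧ ∀ d : ℕ, 6 ≤ d →
    Integrable (fun s => |bes s| ^ d) ∧ ∫ s, |bes s| ^ d ≤ C / Real.sqrt d := by
  obtain ⟨hcont, _, hexp, ⟨q, hq0, hq1, hq⟩, C, hC, hdec⟩ := hB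
  obtain ⟨K, hK, hgeo⟩ := geo_bound hq0 hq1
  set J : ℝ := ∫ s : ℝ, (1 + ‖s‖) ^ (-2 : ℝ) with hJ
  have hJ0 : 0 ≤ J := integral_nonneg fun s => by positivity
  refine ⟨Real.sqrt (2 * Real.pi) + K * C ^ 6 * J, by positivity, fun d hd6 => ?_⟩
  have hd0 : (0 : ℝ) < d := by exact_mod_cast (by omega : 0 < d)
  have hd1 : (1 : ℝ) ≤ d := by exact_mod_cast (by omega : 1 ≤ d)
  have hG : Integrable (fun s : ℝ => Real.exp (-(d / 2) * s ^ 2)) :=
    integrable_exp_neg_mul_sq (by positivity)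
  have hP : Integrable (fun s : ℝ => q ^ (d - 6) * C ^ 6 * (1 + ‖s‖) ^ (-2 : ℝ)) :=
    int_jap.const_mul _
  have hpt : ∀ s : ℝ, |bes s| ^ d ≤
      Real.exp (-(d / 2) * s ^ 2) + q ^ (d - 6) * C ^ 6 * (1 + ‖s‖) ^ (-2 : ℝ) := by
    intro s
    rcases le_total |s| 1 with h | h
    · have h1 : |bes s| ^ d ≤ Real.exp (-(d / 2) * s ^ 2) := by
        calc |bes s| ^ d ≤ (Real.exp (-(s ^ 2) / 2)) ^ d :=
              pow_le_pow_left₀ (abs_nonneg _) (hexp s h) d
          _ = _ := by rw [← Real.exp_nat_mul]; congr 1; ring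
      have h2 : 0 ≤ q ^ (d - 6) * C ^ 6 * (1 + ‖s‖) ^ (-2 : ℝ) := by positivity
      linarith
    · have h1 := pow_bound hq0 hq hdec d hd6 s h
      have h2 := Real.exp_pos (-(d / 2) * s ^ 2)
      linarith
  have hI : Integrable (fun s => |bes s| ^ d) := by
    refine (hG.add hP).mono' ((hcont.abs.pow d).aestronglyMeasurable) ?_
    filter_upwards with s
    rw [Real.norm_eq_abs, abs_of_nonneg (by positivity)]
    exact hpt s
  refine ⟨hI, ?_⟩
  calc ∫ s, |bes s| ^ d ≤ ∫ s : ℝ, (Real.exp (-(d / 2) * s ^ 2) +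
        q ^ (d - 6) * C ^ 6 * (1 + ‖s‖) ^ (-2 : ℝ)) := integral_mono hI (hG.add hP) hpt
    _ = Real.sqrt (Real.pi / (d / 2)) + q ^ (d - 6) * C ^ 6 * J := by
        rw [integral_add hG hP, integral_gaussian, integral_const_mul]
    _ ≤ Real.sqrt (2 * Real.pi) / Real.sqrt d + K * C ^ 6 * J / Real.sqrt d := by
        apply add_le_add
        · apply le_of_eq
          rw [← Real.sqrt_div (by positivity)]
          congr 1
          field_simp
        · have h1 : q ^ (d - 6) ≤ K / Real.sqrt d := by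
            refine (hgeo d hd6).trans ?_
            apply div_le_div_of_nonneg_left hK.le (by positivity)
            rw [Real.sqrt_le_left hd0.le]
            nlinarith
          have h2 := mul_le_mul_of_nonneg_right h1 (by positivity : (0 : ℝ) ≤ C ^ 6 * J)
          calc q ^ (d - 6) * C ^ 6 * J = q ^ (d - 6) * (C ^ 6 * J) := by ring
            _ ≤ _ := h2
            _ = _ := by ring
    _ = _ := by rw [← add_div]

/-- the Gaussian average -/
noncomputable def Gam (d : ℕ) (τ E : ℝ) : ℝ :=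
  ∫ k : UnitAddTorus (Fin d), Real.exp (-((lap d k - E) ^ 2) / (2 * τ ^ 2))

lemma norm_phase (s : ℝ) (d : ℕ) (E : ℝ) :
    ‖Complex.exp (Complex.I * s * (2 * d - E))‖ = 1 := by
  have h : Complex.I * s * (2 * d - E) = ((s * (2 * d - E) : ℝ) : ℂ) * Complex.I := by
    push_cast; ring
  rw [h, Complex.norm_exp_ofReal_mul_I]

lemma int_gam (d : ℕ) (τ E : ℝ) :
    Integrable (fun k : UnitAddTorus (Fin d) => Real.exp (-((lap d k - E) ^ 2) / (2 * τ ^ 2))) := by
  have hc : Continuous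
      (fun k : UnitAddTorus (Fin d) => Real.exp (-((lap d k - E) ^ 2) / (2 * τ ^ 2))) := by
    have := (lap d).continuous
    fun_prop
  exact hc.integrable_of_hasCompactSupport (HasCompactSupport.of_compactSpace _)

/-- upper bound for the Gaussian average -/
lemma gam_le (hB : S_BES) (hG : S_GAU) : ∃ C : ℝ, 0 < C ∧ ∀ d : ℕ, 6 ≤ d → ∀ τ E : ℝ, 0 < τ →
    Gam d τ E ≤ C * τ / Real.sqrt d := by
  obtain ⟨C, hC, h⟩ := int_bes hB
  refine ⟨C, hC, fun d hd τ E hτ => ?_⟩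
  obtain ⟨hI, hle⟩ := h d hd
  have h1 := hG d τ E hτ
  have hG0 : 0 ≤ Gam d τ E := integral_nonneg fun k => (Real.exp_pos _).le
  have h2 : Gam d τ E = ‖((Gam d τ E : ℝ) : ℂ)‖ := by
    rw [Complex.norm_real, Real.norm_eq_abs, abs_of_nonneg hG0]
  rw [h2]
  unfold Gam
  rw [h1, norm_mul, Complex.norm_real, Real.norm_eq_abs, abs_of_nonneg (by positivity)]
  have h3 : ‖∫ s : ℝ, ((Real.exp (-(τ ^ 2 * s ^ 2) / 2) : ℝ) : ℂ)
          * Complex.exp (Complex.I * s * (2 * d - E)) * ((bes s ^ d : ℝ) : ℂ)‖ ≤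
      ∫ s, |bes s| ^ d := by
    apply norm_integral_le_of_norm_le hI
    filter_upwards with s
    rw [norm_mul, norm_mul, norm_phase, mul_one, Complex.norm_real, Complex.norm_real,
      Real.norm_eq_abs, Real.norm_eq_abs, abs_pow, Real.abs_exp]
    have h4 : Real.exp (-(τ ^ 2 * s ^ 2) / 2) ≤ 1 := by
      rw [Real.exp_le_one_iff]
      have : 0 ≤ τ ^ 2 * s ^ 2 := by positivity
      linarith
    calc Real.exp (-(τ ^ 2 * s ^ 2) / 2) * |bes s| ^ d ≤ 1 * |bes s| ^ d :=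
          mul_le_mul_of_nonneg_right h4 (by positivity)
      _ = _ := one_mul _
  have h5 : 1 ≤ Real.sqrt (2 * Real.pi) := by
    rw [Real.one_le_sqrt]
    have := Real.pi_gt_three
    linarith
  calc τ / Real.sqrt (2 * Real.pi) * _ ≤ τ / 1 * (C / Real.sqrt d) := by
        apply mul_le_mul _ (h3.trans hle) (norm_nonneg _) (by positivity)
        exact div_le_div_of_nonneg_left hτ.le one_pos h5
    _ = C * τ / Real.sqrt d := by ring

/-- the number of momenta in a window as an integral -/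
lemma dos_eq (d : ℕ) (E ρ : ℝ) : dos d E ρ =
    ∫ k : UnitAddTorus (Fin d), Set.indicator {k | |lap d k - E| ≤ ρ} (fun _ => (1 : ℝ)) k := by
  have hm : MeasurableSet {k : UnitAddTorus (Fin d) | |lap d k - E| ≤ ρ} := by
    apply IsClosed.measurableSet
    have := (lap d).continuous
    exact isClosed_le (by fun_prop) continuous_const
  rw [integral_indicator hm, integral_const, smul_eq_mul, mul_one]
  unfold dos
  rw [measureReal_restrict_apply_univ]
  rfl

lemma int_ind (d : ℕ) (E ρ : ℝ) : Integrable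
    (fun k : UnitAddTorus (Fin d) =>
      Set.indicator {k | |lap d k - E| ≤ ρ} (fun _ => (1 : ℝ)) k) := by
  have hm : MeasurableSet {k : UnitAddTorus (Fin d) | |lap d k - E| ≤ ρ} := by
    apply IsClosed.measurableSet
    have := (lap d).continuous
    exact isClosed_le (by fun_prop) continuous_const
  exact (integrable_const (1 : ℝ)).indicator hm

end Pool.Agent.N93.HB
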